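import Pool.Agent.Work.MP_fc775b_ag.DetMain
import Pool.Agent.Work.MP_fc775b_ag.Short

/-!
# Generic determinantal varieties
-/

namespace ValForms

universe u

noncomputable section

section
variable (k : Type u) [Field k] (r m n : ℕ) (hm : r ≤ m) (hn : r ≤ n)

/-- The ring of the principal open subset `δ ≠ 0` of the variety of the `m × n` matrices of rank at
most `r + 1` over `k`, `δ` the minor of the first `r` rows and columns: the quotient of the polynomial
ring in the `m n` entries by the ideal of the `(r + 2) × (r + 2)` minors, localised at `δ`. -/
def DetOpen : Type u := CdhForms.DetOpen k r m n hm hn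

instance DetOpen.instCommRing : CommRing (DetOpen k r m n hm hn) :=
  (inferInstance : CommRing (CdhForms.DetOpen k r m n hm hn))

instance DetOpen.instAlgebra (F : Type u) [CommRing F] [Algebra F k] :
    Algebra F (DetOpen k r m n hm hn) :=
  (inferInstance : Algebra F (CdhForms.DetOpen k r m n hm hn))

end

end

end ValForms

namespace Pool.Agent.Results.MP_fc775b_ag.Determinantal

open ValForms

/-- Statement. -/
theorem result {F k : Type} [CommRing F] [Field k] [CharZero k] [Algebra F k] {r m n : ℕ}
    (hm : r + 2 ≤ m) (hn : r + 2 ≤ n) :
    NotOnto F (DetOpen k r m n (Nat.le_of_add_right_le hm) (Nat.le_of_add_right_le hn)) 2 :=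
  notOnto_of (CdhForms.det_not_surjective hm hn)

end Pool.Agent.Results.MP_fc775b_ag.Determinantal
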