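import Pool.Agent.Work.MP_fc775b_ag.ShortArc
import Pool.Agent.Work.MP_fc775b_ag.CorB

/-!
Low degree relations `x y = z w` and `2`-forms on valuation rings.

`ValForms.Form F S p` is the module of Kaehler `p`-forms of `S` over `F`; `ValForms.NotOnto F R p`
says that there is a compatible family of `p`-forms on all valuation rings `O` (and all
homomorphisms `R → O`) that does not come from a Kaehler `p`-form of `R`.
-/

set_option autoImplicit false

open ValForms

namespace Pool.Agent.Results.MP_fc775b_ag.RankFour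

universe u

/-- Let `x y = z w` in `R` and let `φ : R → K⟦X⟧` be an arc whose values are constants from `k`
modulo `X ^ e`, with `φ x = x₀ X ^ a + ...`, `φ z = z₀ X ^ c + ...`, `φ w = w₀ X ^ d + ...`, where
`x₀ ≠ 0`, `a ≤ c`, `a ≤ d` and `c + d < 3 e`.  If `z₀ ^ a / x₀ ^ c` and `w₀ ^ a / x₀ ^ d` are
algebraically independent over `k`, then not every compatible family of `2`-forms comes from a
Kaehler form. -/
def ArcCriterion (F k R : Type u) [CommRing F] [Field k] [CommRing R] [Algebra F k]
    [Algebra F R] : Prop :=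
  ∀ (x y z w : R) (a c d e : ℕ) (α : Arc F k R e) (x₀ z₀ w₀ : α.K),
    x * y = z * w → a ≤ c → a ≤ d → c + d < 3 * e →
    α.Leads x a x₀ → α.Leads z c z₀ → α.Leads w d w₀ → x₀ ≠ 0 →
    AlgebraicIndependent k ![z₀ ^ a / x₀ ^ c, w₀ ^ a / x₀ ^ d] → NotOnto F R 2

/-- The graded case: `R = ⨁ R_n`, `R_0 = k`, `R_n = 0` for `0 < n < e`, and a relation
`x y = z w` with `x`, `z`, `w` homogeneous of degrees `a ≤ c, d`, `c + d < 3 e`, and algebraically
independent over `k`. -/
def GradedCriterion (F k R : Type u) [CommRing F] [Field k] [CommRing R] [Algebra F R]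
    [Algebra k R] : Prop :=
  ∀ (𝒜 : ℕ → Submodule k R) [GradedAlgebra 𝒜] (e : ℕ), Connected 𝒜 e →
    ∀ (x y z w : R) (a c d : ℕ), x * y = z * w → x ∈ 𝒜 a → z ∈ 𝒜 c → w ∈ 𝒜 d →
      a ≤ c → a ≤ d → c + d < 3 * e → AlgebraicIndependent k ![x, z, w] → NotOnto F R 2

/-- Let `F → k` be a homomorphism from a commutative ring to a field of characteristic zero. The
criterion for arcs holds for all `F`-algebras `R`, the graded criterion for all `k`-algebras. -/
theorem result (F k R : Type u) [CommRing F] [Field k] [CharZero k] [CommRing R] [Algebra F k]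
    [Algebra F R] :
    ArcCriterion F k R ∧ ∀ [Algebra k R] [IsScalarTower F k R], GradedCriterion F k R := by
  refine ⟨?_, ?_⟩
  · rintro x y z w a c d e α x₀ z₀ w₀ h hac had hlt ⟨hx, rfl⟩ ⟨hz, rfl⟩ ⟨hw, rfl⟩ hx0 hind
    exact notOnto_of (CdhForms.arc4' (k := k) α.φ e α.const h hac had hlt hx hz hw hx0 hind)
  · intro _ _ 𝒜 _ e hc x y z w a c d h hx hz hw hac had hlt hind
    exact notOnto_of (CdhForms.graded4' 𝒜 hc.1 hc.2 h hx hz hw hac had hlt hind)

end Pool.Agent.Results.MP_fc775b_ag.RankFour
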