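import Pool.Agent.Work.MP_fc775b_ag.ShortArc
import Pool.Agent.Work.MP_fc775b_ag.CorB

/-!
Low degree relations `x y = z ^ 2` and `1`-forms on valuation rings.

`ValForms.Form F S p` is the module of Kaehler `p`-forms of `S` over `F`; `ValForms.NotOnto F R p`
says that there is a compatible family of `p`-forms on all valuation rings `O` (and all
homomorphisms `R → O`) that does not come from a Kaehler `p`-form of `R`.
-/

set_option autoImplicit false

open ValForms

namespace Pool.Agent.Results.MP_fc775b_ag.RankThree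

universe u

/-- Let `x y = z ^ 2` in `R` and let `φ : R → K⟦X⟧` be an arc whose values are constants from `k`
modulo `X ^ e`, with `φ x = x₀ X ^ a + ...`, `φ z = z₀ X ^ c + ...`, where `x₀ ≠ 0` and
`a ≤ c < 2 e`.  If `z₀ ^ a / x₀ ^ c` is transcendental over `k`, then not every compatible family
of `1`-forms comes from a Kaehler form. -/
def ArcCriterion (F k R : Type u) [CommRing F] [Field k] [CommRing R] [Algebra F k]
    [Algebra F R] : Prop :=
  ∀ (x y z : R) (a c e : ℕ) (α : Arc F k R e) (x₀ z₀ : α.K),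
    x * y = z ^ 2 → a ≤ c → c < 2 * e → α.Leads x a x₀ → α.Leads z c z₀ → x₀ ≠ 0 →
    Transcendental k (z₀ ^ a / x₀ ^ c) → NotOnto F R 1

/-- The graded case: `R = ⨁ R_n`, `R_0 = k`, `R_n = 0` for `0 < n < e`, and a relation
`x y = z ^ 2` with `x`, `z` homogeneous of degrees `a ≤ c < 2 e` and algebraically independent
over `k`. -/
def GradedCriterion (F k R : Type u) [CommRing F] [Field k] [CommRing R] [Algebra F R]
    [Algebra k R] : Prop :=
  ∀ (𝒜 : ℕ → Submodule k R) [GradedAlgebra 𝒜] (e : ℕ), Connected 𝒜 e →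
    ∀ (x y z : R) (a c : ℕ), x * y = z ^ 2 → x ∈ 𝒜 a → z ∈ 𝒜 c →
      a ≤ c → c < 2 * e → AlgebraicIndependent k ![x, z] → NotOnto F R 1

/-- The graded case for domains over algebraically closed fields: here it is enough that `x ≠ 0`
and that `z ^ a` is not a multiple of `x ^ c` (for `a = c`: that `z` is not a multiple of `x`). -/
def DomainCriterion (F k R : Type u) [CommRing F] [Field k] [CommRing R] [Algebra F R]
    [Algebra k R] : Prop :=
  ∀ (𝒜 : ℕ → Submodule k R) [GradedAlgebra 𝒜] (e : ℕ), Connected 𝒜 e →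
    ∀ (x y z : R) (a c : ℕ), x * y = z ^ 2 → x ∈ 𝒜 a → z ∈ 𝒜 c →
      a ≤ c → c < 2 * e → x ≠ 0 → (∀ κ : k, z ^ a ≠ κ • x ^ c) → NotOnto F R 1

/-- The `m`-th Veronese subring: the subalgebra generated by the homogeneous elements of degree
divisible by `m`. -/
def veronese {k R : Type u} [Field k] [CommRing R] [Algebra k R] (𝒜 : ℕ → Submodule k R)
    (m : ℕ) : Subalgebra k R :=
  Algebra.adjoin k {r | ∃ n, r ∈ 𝒜 (m * n)}

/-- The `m`-th Veronese subrings, `m ≥ 2`, of gradings with `R_0 = k` and two algebraically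
independent elements `s`, `t` of degree one. -/
def VeroneseCriterion (F k R : Type u) [CommRing F] [Field k] [CommRing R] [Algebra F k]
    [Algebra F R] [Algebra k R] [IsScalarTower F k R] : Prop :=
  ∀ (𝒜 : ℕ → Submodule k R) [GradedAlgebra 𝒜], Connected 𝒜 1 →
    ∀ (m : ℕ) (s t : R), 2 ≤ m → s ∈ 𝒜 1 → t ∈ 𝒜 1 → AlgebraicIndependent k ![s, t] →
      NotOnto F (veronese 𝒜 m) 1

/-- Let `F → k` be a homomorphism from a commutative ring to a field of characteristic zero. The
criterion for arcs holds for all `F`-algebras `R`, the graded criterion and the one for Veronese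
subrings for all `k`-algebras. -/
theorem result (F k R : Type u) [CommRing F] [Field k] [CharZero k] [CommRing R] [Algebra F k]
    [Algebra F R] :
    ArcCriterion F k R ∧ ∀ [Algebra k R] [IsScalarTower F k R],
      GradedCriterion F k R ∧ (IsDomain R → IsAlgClosed k → DomainCriterion F k R) ∧
        VeroneseCriterion F k R := by
  refine ⟨?_, ?_⟩
  · rintro x y z a c e α x₀ z₀ h hac hlt ⟨hx, rfl⟩ ⟨hz, rfl⟩ hx0 hind
    exact notOnto_of (CdhForms.arc3' (k := k) α.φ e α.const (h.trans (pow_two z)) hac hlt hx hz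
      hx0 hind)
  · intro _ _
    refine ⟨?_, ?_, ?_⟩
    · intro 𝒜 _ e hc x y z a c h hx hz hac hlt hind
      exact notOnto_of (CdhForms.graded3' 𝒜 hc.1 hc.2 (h.trans (pow_two z)) hx hz hac hlt hind)
    · intro _ _ 𝒜 _ e hc x y z a c h hx hz hac hlt hx0 hne
      exact notOnto_of (CdhForms.graded3_closed' 𝒜 hc.1 hc.2 (h.trans (pow_two z)) hx hz hac hlt
        hx0 hne)
    · intro 𝒜 _ hc m s t hm hs ht hind
      exact notOnto_of (CdhForms.veronese_not_surjective' 𝒜 hc.1 hm hs ht hind)

end Pool.Agent.Results.MP_fc775b_ag.RankThree
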